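import Pool.Agent.Helper52.NF.St2

set_option autoImplicit false

/-!
Project NF (MP_dd34a0_co), module EUL (the weighted Euler inequality).
-/

namespace Pool.Agent.Helper45.NF

open Pool.Agent.Helper52.NF Finset

/-- **EUL** -/
theorem hEUL (hMAC : StMAC) (hDIM : StDIM) : StEUL := by
  intro ε A B _ _ _ _ α β F hF hspan h2 E₁ A₁ B₁ w M hA hE hM
  let W : Submodule (ZMod 2) (ε → ZMod 2) :=
    { carrier := {x | Cyc α β x}
      zero_mem' := ⟨fun a => by simp, fun b => by simp⟩
      add_mem' := fun {x y} hx hy =>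
        ⟨fun a => by
          have h1 := hx.1 a
          have h2 := hy.1 a
          simp only [Pi.add_apply, Finset.sum_add_distrib, h1, h2, add_zero],
        fun b => by
          have h1 := hx.2 b
          have h2 := hy.2 b
          simp only [Pi.add_apply, Finset.sum_add_distrib, h1, h2, add_zero]⟩
      smul_mem' := fun c x hx =>
        ⟨fun a => by
          have h1 := hx.1 a
          simp only [Pi.smul_apply, smul_eq_mul, ← Finset.mul_sum, h1, mul_zero],
        fun b => by
          have h1 := hx.2 b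
          simp only [Pi.smul_apply, smul_eq_mul, ← Finset.mul_sum, h1, mul_zero]⟩ }
  obtain ⟨F', h3, h4, h5⟩ := hMAC ε W F hF hspan h2 E₁ᶜ
  have h6 : ∀ x ∈ F', Cyc α β x ∧ ∀ e, e ∉ E₁ → x e = 0 := fun x hx =>
    ⟨(h3 x hx).1, fun e he => (h3 x hx).2 e (Finset.mem_compl.2 he)⟩
  have h7 : Submodule.span (ZMod 2) ((F'.erase 0 : Finset (ε → ZMod 2)) : Set (ε → ZMod 2)) =
      Submodule.span (ZMod 2) (F' : Set (ε → ZMod 2)) := by
    rw [Finset.coe_erase]
    exact Submodule.span_sdiff_singleton_zero
  have h8 := hDIM ε A B α β E₁ A₁ B₁ (F'.erase 0) hA hE (fun x hx hx0 => by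
    rw [h7]; exact h4 x hx (fun e he => hx0 e (Finset.mem_compl.1 he)))
  have par : ∀ (S : Finset ε) (x : ε → ZMod 2), ∑ e ∈ S, x e = 0 →
      Even (S.filter (fun e => x e ≠ 0)).card := by
    intro S x hx
    have h1 : ((S.filter (fun e => x e ≠ 0)).card : ZMod 2) = ∑ e ∈ S, x e := by
      rw [Finset.card_filter]
      push_cast
      refine Finset.sum_congr rfl (fun e _ => ?_)
      rcases z01 (x e) with h | h <;> simp [h]
    rw [← ZMod.natCast_eq_zero_iff_even, h1, hx]
  have h9 : ∀ x ∈ F'.erase 0, M ≤ ∑ e ∈ E₁.filter (fun e => x e ≠ 0), w e := by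
    intro x hx
    rw [Finset.mem_erase] at hx
    obtain ⟨hx0, hx1⟩ := hx
    obtain ⟨hc, hz⟩ := h6 x hx1
    refine hM _ (Finset.filter_subset _ _) ?_ ?_ ?_
    · by_contra hne
      rw [Finset.not_nonempty_iff_eq_empty] at hne
      apply hx0
      funext e
      by_cases he : e ∈ E₁
      · by_contra hh
        have h10 : e ∈ E₁.filter (fun e => x e ≠ 0) := Finset.mem_filter.2 ⟨he, hh⟩
        rw [hne] at h10
        exact absurd h10 (Finset.notMem_empty _)
      · exact hz e he
    · intro a
      have h10 := par _ x (hc.1 a)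
      have e1 : (E₁.filter (fun e => x e ≠ 0)).filter (fun e => α e = a) =
          (Finset.univ.filter (fun e => α e = a)).filter (fun e => x e ≠ 0) := by
        ext e
        simp only [Finset.mem_filter, Finset.mem_univ, true_and]
        constructor
        · rintro ⟨⟨_, h1⟩, h2⟩
          exact ⟨h2, h1⟩
        · rintro ⟨h1, h2⟩
          exact ⟨⟨by by_contra h; exact h2 (hz e h), h2⟩, h1⟩
      rw [e1]
      exact h10
    · intro b
      have h10 := par _ x (hc.2 b)
      have e1 : (E₁.filter (fun e => x e ≠ 0)).filter (fun e => β e = b) =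
          (Finset.univ.filter (fun e => β e = b)).filter (fun e => x e ≠ 0) := by
        ext e
        simp only [Finset.mem_filter, Finset.mem_univ, true_and]
        constructor
        · rintro ⟨⟨_, h1⟩, h2⟩
          exact ⟨h2, h1⟩
        · rintro ⟨h1, h2⟩
          exact ⟨⟨by by_contra h; exact h2 (hz e h), h2⟩, h1⟩
      rw [e1]
      exact h10
  have h11 : M * (F'.erase 0).card ≤
      ∑ x ∈ F'.erase 0, ∑ e ∈ E₁.filter (fun e => x e ≠ 0), w e := by
    calc M * (F'.erase 0).card = ∑ x ∈ F'.erase 0, M := by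
          rw [Finset.sum_const, smul_eq_mul, mul_comm]
      _ ≤ _ := Finset.sum_le_sum h9
  have h12 : ∑ x ∈ F'.erase 0, ∑ e ∈ E₁.filter (fun e => x e ≠ 0), w e =
      ∑ e ∈ E₁, w e * ((F'.erase 0).filter (fun x => x e ≠ 0)).card := by
    simp only [Finset.sum_filter]
    rw [Finset.sum_comm]
    refine Finset.sum_congr rfl (fun e _ => ?_)
    rw [← Finset.sum_filter, Finset.sum_const, smul_eq_mul, mul_comm]
  have h13 : ∑ e ∈ E₁, w e * ((F'.erase 0).filter (fun x => x e ≠ 0)).card ≤
      ∑ e ∈ E₁, w e * 2 := by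
    refine Finset.sum_le_sum (fun e _ => Nat.mul_le_mul_left _ ?_)
    exact (Finset.card_le_card (Finset.filter_subset_filter _ (Finset.erase_subset _ _))).trans
      (h5 e)
  rw [← Finset.sum_mul] at h13
  have h14 := Nat.mul_le_mul_left M h8
  rw [h12] at h11
  have h15 : M * ((F'.erase 0).card + (A₁.card + B₁.card)) =
      M * (F'.erase 0).card + M * (A₁.card + B₁.card) := by ring
  omega

end Pool.Agent.Helper45.NF
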